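import Pool.Agent.Helper68.LD.WB1
import Pool.Agent.Helper88.LD.WB2
import Pool.Agent.Helper52.LD.GC
import Pool.Agent.Helper8.LD.N
import Pool.Agent.Helper41.LD.P

/-!
# Project LD, block S: one block of the construction
-/

set_option autoImplicit false

namespace Pool.Agent.Helper9.LD

open Set MeasureTheory Filter Topology
open Pool.Agent.Helper41.LD
open Pool.Agent.Helper33.LD (M_children)
open Pool.Agent.Helper68.LD (M_inc M_var)
open Pool.Agent.Helper88.LD (W_nonneg W_le W_mean)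
open Pool.Agent.Helper52.LD (gain)
open Pool.Agent.Helper8.LD (nb_count)

variable {θ : ℝ} {c : ℕ → ℝ}

lemma two_ge {x : ℝ} (hx : 2 ≤ x) : x / (x - 1) ≤ 2 := by
  rw [div_le_iff₀ (by linarith)]
  linarith

/-- `C_θ ≤ L`, and `12 K ≤ r` if `θ < 2` -/
lemma C_le_L {K n L r Q₀ : ℕ} {ε : ℝ} (P : Par θ K n L r Q₀ ε) : θ / (θ - 1) ≤ L := by
  have hθ := P.hθ
  have hL := P.hL
  have hr1 := P.hr1
  rcases le_or_gt 2 θ with h | h
  · have h3 : 3 ≤ L := by omega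
    have h4 : (3 : ℝ) ≤ L := by exact_mod_cast h3
    linarith [two_ge h]
  · have h1 : 12 * K ≤ r := by
      by_contra hlt
      push Not at hlt
      have h2 : θ ^ r < (2 : ℝ) ^ (12 * K) := by
        calc θ ^ r ≤ 2 ^ r := pow_le_pow_left₀ (by linarith) h.le r
          _ < 2 ^ (12 * K) := pow_lt_pow_right₀ (by norm_num) hlt
      exact absurd P.hr (not_le.2 h2)
    have h2 : K ≤ L := by omega
    have h3 : (K : ℝ) ≤ L := by exact_mod_cast h2
    linarith [P.hC]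

lemma sum_mu (K : ℕ) : ∑ p ∈ idx K, (1 / 2 : ℝ) ^ p.1 = K := by
  unfold idx
  rw [Finset.sum_sigma]
  have : ∀ k ∈ Finset.range K, ∑ s ∈ Finset.range (2 ^ k), (1 / 2 : ℝ) ^ (⟨k, s⟩ : Σ _ : ℕ, ℕ).1 = 1 := by
    intro k _
    show ∑ s ∈ Finset.range (2 ^ k), (1 / 2 : ℝ) ^ k = 1
    rw [Finset.sum_const, Finset.card_range, nsmul_eq_mul]
    push_cast
    rw [← mul_pow]
    norm_num
  rw [Finset.sum_congr rfl this]
  simp

open Classical in
theorem step {K n L r Q₀ r' K' : ℕ} {ε : ℝ} (P : Par θ K n L r Q₀ ε) (hr' : r ≤ r') (hK' : K' ≤ K + 1)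
    (hbig : 4096 * K * L ≤ 2 ^ K) (hK16 : 2 ≤ K) {a ℓ : ℝ} (hw : Win θ n ℓ) {B : ℕ} (hB : 1 ≤ B) (hw' : Win θ (n + L) (ℓ / B))
    (hNB : NB θ c n r K a ℓ) (hPot : Pot θ c n r K (1 / (4096 * K * (L : ℝ) ^ 2)) a ℓ ≤ 16 ^ K) :
    (1 / 2 : ℝ) ^ (3 * K) * B ≤ (((Finset.range B).filter fun b : ℕ =>
      NB θ c (n + L) r' K' (a + b * (ℓ / B)) (ℓ / B) ∧
      Pot θ c (n + L) r K (1 / (4096 * K * (L : ℝ) ^ 2)) (a + b * (ℓ / B)) (ℓ / B) ≤ 16 ^ K).card : ℝ) := by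
  have hθ := P.hθ
  have hθ0 : 0 < θ := by linarith
  have hCL := C_le_L P
  have hC0 : 0 < θ / (θ - 1) := div_pos hθ0 (by linarith)
  have hK1 : (2 : ℝ) ≤ K := by exact_mod_cast hK16
  have h3r : 3 * (r : ℝ) ≤ L := by exact_mod_cast P.hL
  have hr1 : (1 : ℝ) ≤ r := by exact_mod_cast P.hr1
  have hL3 : (3 : ℝ) ≤ L := by linarith
  have hB1 : (1 : ℝ) ≤ B := by exact_mod_cast hB
  have hbig' : 4096 * (K : ℝ) * L ≤ 2 ^ K := by exact_mod_cast hbig
  have hℓ : 0 < ℓ := by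
    have h1 := hw.1
    by_contra h
    push Not at h
    have : θ ^ n * ℓ ≤ 0 := mul_nonpos_of_nonneg_of_nonpos (by positivity) h
    linarith
  have hℓB : 0 < ℓ / B := by positivity
  -- the parameters
  obtain ⟨lam, hlam⟩ : ∃ lam : ℝ, lam = 1 / (4096 * K * (L : ℝ) ^ 2) := ⟨_, rfl⟩
  obtain ⟨D, hD⟩ : ∃ D : ℝ, D = 2 * ((L : ℝ) + r) + 2 * (θ / (θ - 1)) := ⟨_, rfl⟩
  obtain ⟨ρ, hρ⟩ : ∃ ρ : ℝ, ρ = 2 * (1 / 2) ^ (3 * K) := ⟨_, rfl⟩
  have hlam0 : 0 < lam := by rw [hlam]; positivity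
  have hD0 : 0 < D := by rw [hD]; positivity
  have hD5 : D ≤ 5 * L := by rw [hD]; linarith
  have hlamKL : lam * (4096 * K * (L : ℝ) ^ 2) = 1 := by
    rw [hlam]
    field_simp
  have hK2 : (0 : ℝ) < 2 ^ K := by positivity
  have hhalf : (1 / 2 : ℝ) ^ K * 2 ^ K = 1 := by rw [← mul_pow]; norm_num
  have hhp : 0 < (1 / 2 : ℝ) ^ K := by positivity
  have h3K : (1 / 2 : ℝ) ^ (3 * K) = (1 / 2) ^ K * (1 / 2) ^ K * (1 / 2) ^ K := by
    rw [← pow_add, ← pow_add]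
    congr 1
    ring
  have hhK : (1 / 2 : ℝ) ^ K * (4096 * K * L) ≤ 1 := by
    calc (1 / 2 : ℝ) ^ K * (4096 * K * L) ≤ (1 / 2) ^ K * 2 ^ K := by gcongr
      _ = 1 := hhalf
  have key := steer_step (idx K) hB (fun p => M θ c p.1 p.2 a ℓ) (fun p => W θ c n r p.1 p.2 a ℓ) (fun p => (1 / 2 : ℝ) ^ p.1)
    (fun p b => M θ c p.1 p.2 (a + b * (ℓ / B)) (ℓ / B) - M θ c p.1 p.2 a ℓ)
    (fun p b => W θ c (n + L) r p.1 p.2 (a + b * (ℓ / B)) (ℓ / B)) (lam := lam) (D := D) (E₁ := 48 * (L : ℝ) ^ 2)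
    (E₂ := 2 * (r : ℝ) ^ 2) (E₃ := (r : ℝ) ^ 2) (γ := 1 / (2 * K)) (τ := 16 ^ K) (μ₀ := (1 / 2) ^ K) (K := K) (ρ := ρ)
    hlam0 hD0 (by
      have h1 : lam * D ≤ lam * (5 * L) := by gcongr
      have h2 : lam * (5 * L) ≤ 1 / 2 := by
        have h3 : 10 * (L : ℝ) ≤ 4096 * K * (L : ℝ) ^ 2 := by nlinarith [mul_nonneg (by linarith : (0:ℝ) ≤ K) (by linarith : (0:ℝ) ≤ L)]
        have h4 : lam * (10 * L) ≤ lam * (4096 * K * (L : ℝ) ^ 2) := by gcongr
        linarith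
      linarith) (by positivity) (by positivity) (by positivity) (by positivity)
    (fun p _ => by
      rw [Finset.sum_sub_distrib, M_children hθ p.1 p.2 a hℓ hB, Finset.sum_const, Finset.card_range, nsmul_eq_mul]
      ring)
    (fun p hp b hb => by
      have hk : p.1 < K := by
        unfold idx at hp
        rw [Finset.mem_sigma, Finset.mem_range] at hp
        exact hp.1
      rw [hD]
      exact M_inc hθ hw hNB hk p.2 hB hw' hb)
    (fun p hp => by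
      have hk : p.1 < K := by
        unfold idx at hp
        rw [Finset.mem_sigma, Finset.mem_range] at hp
        exact hp.1
      exact M_var hθ hw hNB hk p.2 hB hw' hCL (by have := P.hL; have := P.hr1; omega))
    (fun p _ => W_nonneg n r p.1 p.2 hℓ) (fun p _ => W_le n r p.1 p.2 hℓ)
    (fun p _ b _ => W_nonneg (n + L) r p.1 p.2 hℓB) (fun p _ b _ => W_le (n + L) r p.1 p.2 hℓB)
    (fun p _ => W_mean hθ p.1 p.2 hw hB (by have := P.hL; omega))
    (fun g => gain P hw hB hw' g)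
    (fun p hp => by
      have hk : p.1 < K := by
        unfold idx at hp
        rw [Finset.mem_sigma, Finset.mem_range] at hp
        exact hp.1
      exact pow_le_pow_of_le_one (by norm_num) (by norm_num) hk.le)
    (sum_mu K).le
    (by
      have h1 : (1 / 2 : ℝ) ^ K * 16 ^ K = 8 ^ K := by rw [← mul_pow]; norm_num
      rw [h1]
      have h2 : ∀ m : ℕ, 2 ≤ m → 16 * (m : ℝ) ≤ 8 ^ m := by
        intro m hm
        induction m, hm using Nat.le_induction with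
        | base => norm_num
        | succ m hm ih =>
          have hm' : (2 : ℝ) ≤ m := by exact_mod_cast hm
          push_cast
          rw [pow_succ]
          linarith
      exact h2 K hK16)
    (by linarith)
    (by
      have h1 : lam * r ≤ 1 / 2 := by
        have h3 : 2 * (r : ℝ) ≤ 4096 * K * (L : ℝ) ^ 2 := by nlinarith [mul_nonneg (by linarith : (0:ℝ) ≤ K) (by linarith : (0:ℝ) ≤ L)]
        have h4 : lam * (2 * r) ≤ lam * (4096 * K * (L : ℝ) ^ 2) := by gcongr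
        linarith
      have h2 : 0 ≤ lam * r := by positivity
      nlinarith)
    (by
      have h1 : 48 * (L : ℝ) ^ 2 + 8 * (2 * (r : ℝ) ^ 2) ≤ 50 * (L : ℝ) ^ 2 := by nlinarith
      have h2 : 24 * lam * (50 * (L : ℝ) ^ 2) ≤ 1 / (2 * K) := by
        rw [le_div_iff₀ (by positivity)]
        have h3 : 24 * lam * (50 * (L : ℝ) ^ 2) * (2 * K) = 2400 / 4096 * (lam * (4096 * K * (L : ℝ) ^ 2)) := by ring
        rw [h3, hlamKL]
        norm_num
      exact le_trans (by gcongr) h2)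
    (by
      rw [← hlam] at hPot
      exact hPot)
    (by
      rw [hρ, h3K]
      have h1 : (1 / 2 : ℝ) ^ K ≤ 1 / 4 := by
        calc (1 / 2 : ℝ) ^ K ≤ (1 / 2) ^ 2 := pow_le_pow_of_le_one (by norm_num) (by norm_num) hK16
          _ = 1 / 4 := by norm_num
      have h2 : (1 / 2 : ℝ) ^ K * (1 / 2) ^ K ≤ 1 / 4 * (1 / 4) := by gcongr
      have h3 : (1 / 2 : ℝ) ^ K * (1 / 2) ^ K * (1 / 2) ^ K ≤ 1 / 4 * (1 / 4) * (1 / 4) := by gcongr
      linarith)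
    (by
      rw [hρ, h3K]
      -- `2 h^3 ≤ lam^2 48 L^2 h / 8`
      have h1 : (1 / 2 : ℝ) ^ K ≤ lam * L := by
        have h3 : (1 / 2 : ℝ) ^ K * (4096 * K * L) ≤ (lam * L) * (4096 * K * L) := by
          calc (1 / 2 : ℝ) ^ K * (4096 * K * L) ≤ 1 := hhK
            _ = lam * (4096 * K * (L : ℝ) ^ 2) := hlamKL.symm
            _ = (lam * L) * (4096 * K * L) := by ring
        exact le_of_mul_le_mul_right h3 (by positivity)
      have h2 : (1 / 2 : ℝ) ^ K * (1 / 2) ^ K ≤ (lam * L) * (lam * L) := by gcongr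
      calc 2 * ((1 / 2 : ℝ) ^ K * (1 / 2) ^ K * (1 / 2) ^ K) ≤ 2 * ((lam * L) * (lam * L) * (1 / 2) ^ K) := by gcongr
        _ ≤ 6 * ((lam * L) * (lam * L) * (1 / 2) ^ K) := by
          have : 0 ≤ (lam * L) * (lam * L) * (1 / 2 : ℝ) ^ K := by positivity
          linarith
        _ = lam ^ 2 * (48 * (L : ℝ) ^ 2) * (1 / 2) ^ K / 8 := by ring)
    (by
      rw [hρ, h3K, le_div_iff₀ (by positivity)]
      -- `2 h^3 8 D ≤ h / (2K)`
      have h1 : (1 / 2 : ℝ) ^ K ≤ 1 := pow_le_one₀ (by norm_num) (by norm_num)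
      have h2 : (1 / 2 : ℝ) ^ K * (1 / 2) ^ K ≤ (1 / 2) ^ K * 1 := by gcongr
      have h4 : 1 / (2 * (K : ℝ)) * (1 / 2) ^ K = (1 / 2) ^ K * (1 / (2 * K)) := by ring
      rw [h4]
      have h5 : 2 * ((1 / 2 : ℝ) ^ K * (1 / 2) ^ K * (1 / 2) ^ K) * (8 * D) =
          (1 / 2) ^ K * ((1 / 2 : ℝ) ^ K * (1 / 2) ^ K * (16 * D)) := by ring
      rw [h5]
      apply mul_le_mul_of_nonneg_left _ hhp.le
      rw [le_div_iff₀ (by positivity)]
      calc (1 / 2 : ℝ) ^ K * (1 / 2) ^ K * (16 * D) * (2 * K) ≤ (1 / 2) ^ K * 1 * (16 * (5 * L)) * (2 * K) := by gcongr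
        _ = (1 / 2) ^ K * (160 * K * L) := by ring
        _ ≤ (1 / 2) ^ K * (4096 * K * L) := by
          apply mul_le_mul_of_nonneg_left _ hhp.le
          have : 0 ≤ (K : ℝ) * L := by positivity
          nlinarith
        _ ≤ 1 := hhK)
  -- the children with a cell boundary
  have hnb := nb_count (c := c) hθ (n := n) (L := L) r' K' a hw hB
  have hBL : θ ^ L ≤ 2 * B := by
    have h1 := hw.1
    have h2 := hw'.2
    have h3 : θ ^ (n + L) * (ℓ / B) = θ ^ L * (θ ^ n * ℓ) / B := by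
      rw [pow_add]
      ring
    rw [h3, div_le_iff₀ (by linarith)] at h2
    have h4 : 0 < θ ^ L := by positivity
    nlinarith
  have h12 : (2 : ℝ) ^ (12 * K) ≤ θ ^ r := P.hr
  have h12' : (2 : ℝ) ^ (12 * K) ≤ θ ^ r' := h12.trans (pow_le_pow_right₀ hθ.le hr')
  have hCK := P.hC
  have hK2K : (K : ℝ) ≤ 2 ^ K := by
    have := Nat.lt_two_pow_self (n := K)
    exact_mod_cast this.le
  have hpK : (2 : ℝ) ^ (K' + 1) ≤ 4 * 2 ^ K := by
    calc (2 : ℝ) ^ (K' + 1) ≤ 2 ^ (K + 2) := pow_le_pow_right₀ (by norm_num) (by omega)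
      _ = 4 * 2 ^ K := by rw [pow_add]; ring
  obtain ⟨z, hz⟩ : ∃ z : ℝ, z = 2 ^ K := ⟨_, rfl⟩
  have hz4 : 4 ≤ z := by
    rw [hz]
    calc (4 : ℝ) = 2 ^ 2 := by norm_num
      _ ≤ 2 ^ K := pow_le_pow_right₀ (by norm_num) hK16
  have hz12 : (2 : ℝ) ^ (12 * K) = z ^ 12 := by rw [hz, ← pow_mul, mul_comm]
  have hzi : (1 / 2 : ℝ) ^ K = 1 / z := by rw [hz, one_div_pow]
  have hfirst : 2 ^ (K' + 1) * (θ / (θ - 1)) * θ ^ L / θ ^ r' ≤ 8 / z ^ 10 * B := by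
    rw [div_le_iff₀ (by positivity)]
    have h1 : 2 ^ (K' + 1) * (θ / (θ - 1)) * θ ^ L ≤ (4 * z) * z * (2 * B) := by
      have h2 : θ / (θ - 1) ≤ z := by rw [hz]; linarith
      have h3 : (2 : ℝ) ^ (K' + 1) ≤ 4 * z := by rw [hz]; exact hpK
      gcongr
    have h4 : 8 / z ^ 10 * B * z ^ 12 ≤ 8 / z ^ 10 * B * θ ^ r' := by
      rw [← hz12]
      gcongr
    have h5 : 8 / z ^ 10 * B * z ^ 12 = (4 * z) * z * (2 * B) := by
      field_simp
      ring
    linarith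
  have hB12 : z ^ 12 ≤ 2 * B := by
    rw [← hz12]
    calc (2 : ℝ) ^ (12 * K) ≤ θ ^ r := h12
      _ ≤ θ ^ L := pow_le_pow_right₀ hθ.le (by have := P.hL; omega)
      _ ≤ 2 * B := hBL
  have hsecond : ((n : ℝ) + L) ≤ 2 / z ^ 10 * B := by
    have h1 : n + L ≤ 2 ^ (2 * K) := le_trans (by omega) P.hn
    have h2 : (n : ℝ) + L ≤ z ^ 2 := by
      rw [hz, ← pow_mul, mul_comm K 2]
      exact_mod_cast h1
    calc (n : ℝ) + L ≤ z ^ 2 := h2
      _ = z ^ 12 / z ^ 10 := by field_simp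
      _ ≤ (2 * B) / z ^ 10 := by gcongr
      _ = _ := by ring
  have hbad : 2 ^ (K' + 1) * (θ / (θ - 1)) * θ ^ L / θ ^ r' + ((n : ℝ) + L) ≤ 1 / z ^ 3 * B := by
    have h1 : 8 / z ^ 10 * (B : ℝ) + 2 / z ^ 10 * B = 10 / z ^ 10 * B := by ring
    have h2 : 10 / z ^ 10 ≤ 1 / z ^ 3 := by
      rw [div_le_div_iff₀ (by positivity) (by positivity)]
      have h3 : (4 : ℝ) ^ 7 ≤ z ^ 7 := pow_le_pow_left₀ (by norm_num) hz4 7
      have h4 : (10 : ℝ) ≤ z ^ 7 := by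
        refine le_trans ?_ h3
        norm_num
      calc 10 * z ^ 3 ≤ z ^ 7 * z ^ 3 := by gcongr
        _ = 1 * z ^ 10 := by ring
    have h5 : 10 / z ^ 10 * (B : ℝ) ≤ 1 / z ^ 3 * B := by gcongr
    linarith
  have hρz : ρ = 2 * (1 / z ^ 3) := by
    rw [hρ, h3K, hzi]
    field_simp
  have h3Kz : (1 / 2 : ℝ) ^ (3 * K) = 1 / z ^ 3 := by
    rw [h3K, hzi]
    field_simp
  -- the count
  have hcard : ((Finset.range B).filter fun b : ℕ =>
      ∑ p ∈ idx K, Real.cosh (lam * (M θ c p.1 p.2 a ℓ + (M θ c p.1 p.2 (a + b * (ℓ / B)) (ℓ / B) - M θ c p.1 p.2 a ℓ))) *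
        (1 + 4 * lam ^ 2 * W θ c (n + L) r p.1 p.2 (a + b * (ℓ / B)) (ℓ / B)) ≤ 16 ^ K).card ≤
      ((Finset.range B).filter fun b : ℕ => NB θ c (n + L) r' K' (a + b * (ℓ / B)) (ℓ / B) ∧
        Pot θ c (n + L) r K (1 / (4096 * K * (L : ℝ) ^ 2)) (a + b * (ℓ / B)) (ℓ / B) ≤ 16 ^ K).card +
      ((Finset.range B).filter fun b : ℕ => ¬ NB θ c (n + L) r' K' (a + b * (ℓ / B)) (ℓ / B)).card := by
    rw [← hlam]
    refine (Finset.card_le_card ?_).trans (Finset.card_union_le _ _)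
    intro b hb
    rw [Finset.mem_filter] at hb
    rw [Finset.mem_union, Finset.mem_filter, Finset.mem_filter]
    by_cases h : NB θ c (n + L) r' K' (a + b * (ℓ / B)) (ℓ / B)
    · left
      refine ⟨hb.1, h, ?_⟩
      unfold Pot
      refine le_trans (le_of_eq ?_) hb.2
      refine Finset.sum_congr rfl fun p _ => ?_
      rw [add_sub_cancel]
    · right
      exact ⟨hb.1, h⟩
  have hcard' := (Nat.cast_le (α := ℝ)).2 hcard
  rw [Nat.cast_add] at hcard'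
  have key' := key.trans hcard'
  rw [h3Kz]
  rw [hρz] at key'
  linarith

end Pool.Agent.Helper9.LD
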